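import Mathlib

set_option autoImplicit false
set_option linter.unusedSectionVars false

/-! # Orthogonal involutions of quaternion algebras: definitions and identities -/

namespace Pool.Agent.Q275.DE

variable {K H : Type*} [Field K] [Ring H] [Algebra K H]

/-- A standard involution of the `K`-algebra `H`: a `K`-linear anti-automorphism `x ↦ x̄` with `(x̄)‾ = x` such that
`x + x̄` and `x x̄` are elements of `K` for all `x`. (A quaternion algebra has exactly one.) -/
structure StdInv (K H : Type*) [Field K] [Ring H] [Algebra K H] where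
  /-- the involution -/
  bar : H →ₗ[K] H
  bar_mul : ∀ x y, bar (x * y) = bar y * bar x
  bar_bar : ∀ x, bar (bar x) = x
  trace : ∀ x, ∃ t : K, x + bar x = algebraMap K H t
  norm : ∀ x, ∃ t : K, x * bar x = algebraMap K H t

/-- The standard involution together with an element `u` which gives the orthogonal involution `z ↦ u z̄ u⁻¹`:
`u` is invertible, not in `K`, and `u²` is in `K`. -/
structure OrthInv (K H : Type*) [Field K] [Ring H] [Algebra K H] extends StdInv K H where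
  /-- the element `u` -/
  u : Hˣ
  not_mem : (u : H) ∉ Set.range (algebraMap K H)
  sq_mem : (u : H) ^ 2 ∈ Set.range (algebraMap K H)

/-- The orthogonal involution `z ↦ u z̄ u⁻¹`. -/
def OrthInv.dag (D : OrthInv K H) (z : H) : H := D.u * D.bar z * ↑D.u⁻¹

/-- The automorphism `z ↦ u z u⁻¹`. -/
def OrthInv.tau (D : OrthInv K H) (z : H) : H := D.u * z * ↑D.u⁻¹

namespace StdInv

variable (S : StdInv K H)

lemma bar_one : S.bar 1 = 1 := by
  have h := S.bar_mul 1 (S.bar 1)
  rw [one_mul, S.bar_bar, one_mul] at h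
  exact h.symm

lemma bar_algebraMap (k : K) : S.bar (algebraMap K H k) = algebraMap K H k := by
  rw [Algebra.algebraMap_eq_smul_one, map_smul, S.bar_one]

/-- the reduced trace -/
noncomputable def tr (x : H) : K := (S.trace x).choose

lemma add_bar (x : H) : x + S.bar x = algebraMap K H (S.tr x) := (S.trace x).choose_spec

/-- the reduced norm -/
noncomputable def nrd (x : H) : K := (S.norm x).choose

lemma mul_bar (x : H) : x * S.bar x = algebraMap K H (S.nrd x) := (S.norm x).choose_spec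

lemma bar_eq (x : H) : S.bar x = algebraMap K H (S.tr x) - x := by
  rw [← S.add_bar]; abel

lemma bar_mul_self (x : H) : S.bar x * x = algebraMap K H (S.nrd x) := by
  rw [← S.mul_bar, S.bar_eq, sub_mul, mul_sub, Algebra.commutes]

variable [Nontrivial H]

lemma nrd_mul (x y : H) : S.nrd (x * y) = S.nrd x * S.nrd y := by
  apply (algebraMap K H).injective
  rw [← S.mul_bar, S.bar_mul, map_mul, ← S.mul_bar x]
  calc x * y * (S.bar y * S.bar x) = x * (y * S.bar y) * S.bar x := by noncomm_ring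
    _ = x * S.bar x * algebraMap K H (S.nrd y) := by
        rw [S.mul_bar, mul_assoc, Algebra.commutes, ← mul_assoc]
    _ = _ := by rw [S.mul_bar]

lemma nrd_one : S.nrd 1 = 1 := by
  apply (algebraMap K H).injective
  rw [← S.mul_bar, S.bar_one, one_mul, map_one]

lemma nrd_zero : S.nrd 0 = 0 := by
  apply (algebraMap K H).injective
  rw [← S.mul_bar, zero_mul, map_zero]

lemma nrd_bar (x : H) : S.nrd (S.bar x) = S.nrd x := by
  apply (algebraMap K H).injective
  rw [← S.mul_bar, S.bar_bar, S.bar_mul_self]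

end StdInv

namespace OrthInv

variable (D : OrthInv K H)

lemma uu : (D.u : H) * ↑D.u⁻¹ = 1 := D.u.mul_inv
lemma uu' : (↑D.u⁻¹ : H) * D.u = 1 := D.u.inv_mul

lemma tau_mul (x y : H) : D.tau (x * y) = D.tau x * D.tau y := by
  unfold tau
  calc (D.u : H) * (x * y) * ↑D.u⁻¹ = D.u * x * 1 * y * ↑D.u⁻¹ := by noncomm_ring
    _ = D.u * x * (↑D.u⁻¹ * D.u) * y * ↑D.u⁻¹ := by rw [D.uu']
    _ = _ := by noncomm_ring

lemma tau_add (x y : H) : D.tau (x + y) = D.tau x + D.tau y := by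
  unfold tau; noncomm_ring

lemma tau_algebraMap (k : K) : D.tau (algebraMap K H k) = algebraMap K H k := by
  unfold tau
  rw [← Algebra.commutes, mul_assoc, D.uu, mul_one]

variable [Nontrivial H]

lemma bar_u : D.bar D.u = -D.u := by
  obtain ⟨s, hs⟩ := D.sq_mem
  have h1 : (D.u : H) * (D.u + D.bar D.u) = algebraMap K H (s + D.nrd D.u) := by
    rw [mul_add, D.mul_bar, map_add, hs, sq]
  rw [D.add_bar, ← Algebra.commutes] at h1
  have ht : D.tr (D.u : H) = 0 := by
    by_contra h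
    apply D.not_mem
    refine ⟨(D.tr (D.u : H))⁻¹ * (s + D.nrd D.u), ?_⟩
    rw [map_mul, ← h1, ← mul_assoc, ← map_mul, inv_mul_cancel₀ h, map_one, one_mul]
  rw [D.bar_eq, ht, map_zero, zero_sub]

lemma bar_uinv : D.bar ↑D.u⁻¹ = -(↑D.u⁻¹ : H) := by
  have h1 : D.bar ↑D.u⁻¹ * D.bar D.u = 1 := by
    rw [← D.bar_mul, D.uu, D.bar_one]
  rw [D.bar_u] at h1
  calc D.bar ↑D.u⁻¹ = D.bar ↑D.u⁻¹ * (D.u * ↑D.u⁻¹) := by rw [D.uu, mul_one]
    _ = -((D.bar ↑D.u⁻¹ * -D.u) * ↑D.u⁻¹) := by noncomm_ring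
    _ = _ := by rw [h1, one_mul]

/-- `u⁻¹ z u = u z u⁻¹` -/
lemma tau' (z : H) : (↑D.u⁻¹ : H) * z * D.u = D.tau z := by
  obtain ⟨s, hs⟩ := D.sq_mem
  unfold tau
  have h1 : (D.u : H) * D.u * z = z * (D.u * D.u) := by
    rw [← sq, ← hs, Algebra.commutes]
  calc (↑D.u⁻¹ : H) * z * D.u = ↑D.u⁻¹ * (z * (D.u * D.u)) * ↑D.u⁻¹ := by
        rw [show (↑D.u⁻¹ : H) * (z * (D.u * D.u)) * ↑D.u⁻¹ = ↑D.u⁻¹ * z * D.u * (D.u * ↑D.u⁻¹) by noncomm_ring,
          D.uu, mul_one]
    _ = (↑D.u⁻¹ * D.u) * D.u * z * ↑D.u⁻¹ := by rw [← h1]; noncomm_ring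
    _ = _ := by rw [D.uu', one_mul]

lemma dag_mul (x y : H) : D.dag (x * y) = D.dag y * D.dag x := by
  unfold dag
  rw [D.bar_mul]
  calc (D.u : H) * (D.bar y * D.bar x) * ↑D.u⁻¹ = D.u * D.bar y * 1 * D.bar x * ↑D.u⁻¹ := by noncomm_ring
    _ = D.u * D.bar y * (↑D.u⁻¹ * D.u) * D.bar x * ↑D.u⁻¹ := by rw [D.uu']
    _ = _ := by noncomm_ring

lemma dag_add (x y : H) : D.dag (x + y) = D.dag x + D.dag y := by
  unfold dag; rw [map_add]; noncomm_ring

lemma dag_sub (x y : H) : D.dag (x - y) = D.dag x - D.dag y := by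
  unfold dag; rw [map_sub]; noncomm_ring

lemma dag_neg (x : H) : D.dag (-x) = -D.dag x := by
  unfold dag; rw [map_neg]; noncomm_ring

lemma dag_smul (k : K) (x : H) : D.dag (k • x) = k • D.dag x := by
  unfold dag; rw [map_smul, mul_smul_comm, smul_mul_assoc]

lemma dag_algebraMap (k : K) : D.dag (algebraMap K H k) = algebraMap K H k := by
  unfold dag
  rw [D.bar_algebraMap, ← Algebra.commutes, mul_assoc, D.uu, mul_one]

lemma dag_one : D.dag 1 = 1 := by
  have := D.dag_algebraMap 1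
  rwa [map_one] at this

lemma dag_dag (x : H) : D.dag (D.dag x) = x := by
  unfold dag
  rw [D.bar_mul, D.bar_mul, D.bar_bar, D.bar_u, D.bar_uinv]
  calc (D.u : H) * (-↑D.u⁻¹ * (x * -D.u)) * ↑D.u⁻¹ = (D.u * ↑D.u⁻¹) * x * (D.u * ↑D.u⁻¹) := by noncomm_ring
    _ = x := by rw [D.uu, one_mul, mul_one]

lemma dag_bar (x : H) : D.dag (D.bar x) = D.tau x := by
  unfold dag tau; rw [D.bar_bar]

lemma dag_tau (x : H) : D.dag (D.tau x) = D.bar x := by
  rw [← D.dag_bar, D.dag_dag]

lemma tau_mul_dag (x : H) : D.tau x * D.dag x = algebraMap K H (D.nrd x) := by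
  unfold dag tau
  calc (D.u : H) * x * ↑D.u⁻¹ * (D.u * D.bar x * ↑D.u⁻¹) = D.u * x * (↑D.u⁻¹ * D.u) * D.bar x * ↑D.u⁻¹ := by
        noncomm_ring
    _ = D.u * (x * D.bar x) * ↑D.u⁻¹ := by rw [D.uu']; noncomm_ring
    _ = _ := by rw [D.mul_bar, ← Algebra.commutes, mul_assoc, D.uu, mul_one]

lemma nrd_tau (x : H) : D.nrd (D.tau x) = D.nrd x := by
  have h1 : D.nrd (D.tau x) = D.nrd (D.u : H) * D.nrd x * D.nrd (↑D.u⁻¹ : H) := by
    unfold tau; rw [D.nrd_mul, D.nrd_mul]
  have h2 : D.nrd (D.u : H) * D.nrd (↑D.u⁻¹ : H) = 1 := by rw [← D.nrd_mul, D.uu, D.nrd_one]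
  rw [h1]
  linear_combination D.nrd x * h2

lemma u_ne : (D.u : H) ≠ 0 := D.u.ne_zero

/-- `H⁻ = K u` -/
lemma skew [NeZero (2 : K)] (w : H) (hw : D.dag w = -w) : ∃ k : K, w = k • (D.u : H) := by
  have h1 : (D.u : H) * D.bar w = -(w * D.u) := by
    have h2 : D.dag w * D.u = D.u * D.bar w := by
      unfold dag
      rw [mul_assoc, D.uu', mul_one]
    rw [← h2, hw, neg_mul]
  have h3 : D.bar (w * D.u) = w * D.u := by
    rw [D.bar_mul, D.bar_u, neg_mul, h1, neg_neg]
  have h4 := D.add_bar (w * D.u)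
  rw [h3] at h4
  obtain ⟨t, ht⟩ : ∃ t, t = D.tr (w * D.u) := ⟨_, rfl⟩
  rw [← ht] at h4
  obtain ⟨s, hs⟩ := D.sq_mem
  have hs0 : s ≠ 0 := by
    rintro rfl
    rw [map_zero] at hs
    have : IsUnit ((D.u : H) ^ 2) := D.u.isUnit.pow 2
    rw [← hs] at this
    exact not_isUnit_zero this
  have h5 : w * D.u = algebraMap K H (t / 2) := by
    have h6 : (2 : K) • (w * D.u) = algebraMap K H t := by rw [two_smul]; exact h4
    rw [div_eq_inv_mul, map_mul, ← h6, Algebra.smul_def, ← mul_assoc, ← map_mul, inv_mul_cancel₀ (NeZero.ne (2 : K)),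
      map_one, one_mul]
  refine ⟨t / 2 / s, ?_⟩
  have h7 : w * (D.u * D.u) = (t / 2) • (D.u : H) := by
    rw [← mul_assoc, h5, Algebra.smul_def]
  rw [← sq, ← hs, ← Algebra.commutes, ← Algebra.smul_def] at h7
  rw [div_eq_inv_mul, mul_smul, ← h7, smul_smul, inv_mul_cancel₀ hs0, one_smul]

end OrthInv

/-! ### Orders -/

section Order

variable {R : Type*} [CommRing R] [Algebra R K] [Algebra R H] [IsScalarTower R K H]

/-- A `‡`-order: a subalgebra over the ring of integers `R` which is a finitely generated `R`-module, spans `H` over `K`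
and is stable under `‡`. -/
structure OrthInv.IsDagOrder (D : OrthInv K H) (O : Subalgebra R H) : Prop where
  fg : (Subalgebra.toSubmodule O).FG
  span : Submodule.span K (O : Set H) = ⊤
  dag : ∀ z ∈ O, D.dag z ∈ O

/-- A maximal `‡`-order: a `‡`-order which is not strictly contained in another one. -/
def OrthInv.IsMaximalDagOrder (D : OrthInv K H) (O : Subalgebra R H) : Prop :=
  D.IsDagOrder O ∧ ∀ O' : Subalgebra R H, D.IsDagOrder O' → O ≤ O' → O' = O

/-- `O` is `‡`-Euclidean: there are a well-ordered set `W` and a map `Φ : O → W` such that for all `a, b ∈ O` with `b ≠ 0`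
and `a b^‡ ∈ O⁺` there is `q ∈ O⁺` with `Φ(a - b q) < Φ(b)`; here `O⁺` is the set of the `z ∈ O` with `z^‡ = z`. -/
def OrthInv.IsDagEuclidean.{w} (D : OrthInv K H) (O : Subalgebra R H) : Prop :=
  ∃ (W : Type w) (_ : LinearOrder W) (_ : WellFoundedLT W) (Φ : O → W), ∀ a b : O, b ≠ 0 →
    ((a : H) * D.dag b ∈ O ∧ D.dag ((a : H) * D.dag b) = (a : H) * D.dag b) →
      ∃ q : O, D.dag q = q ∧ Φ (a - b * q) < Φ b

end Order

end Pool.Agent.Q275.DE
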