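import Pool.Agent.Q275.DE.Euc

set_option autoImplicit false
set_option linter.unusedSectionVars false

/-! # Every `‡`-order is contained in a `‡`-Euclidean one -/

namespace Pool.Agent.Q275.DE

universe w

variable {R K H : Type*} [CommRing R] [Field K] [Ring H] [Algebra R K] [Algebra K H] [Algebra R H] [IsScalarTower R K H]
variable [Nontrivial H]

namespace OrthInv

variable (D : OrthInv K H)

/-- the coefficient of `2 u` -/
lemma exists_pi [NeZero (2 : K)] : ∃ π : H →ₗ[K] K, ∀ z, z - D.dag z = π z • (D.u : H) := by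
  have key : ∀ z, ∃ k : K, z - D.dag z = k • (D.u : H) := fun z => D.skew _ (by rw [D.dag_sub, D.dag_dag, neg_sub])
  choose f hf using key
  have hinj : ∀ k l : K, k • (D.u : H) = l • (D.u : H) → k = l := fun k l h => smul_left_injective K D.u_ne h
  refine ⟨{ toFun := f, map_add' := fun x y => ?_, map_smul' := fun k x => ?_ }, hf⟩
  · apply hinj
    rw [← hf, add_smul, ← hf, ← hf, D.dag_add]; abel
  · apply hinj
    rw [← hf, RingHom.id_apply, smul_eq_mul, mul_smul, ← hf, D.dag_smul, smul_sub]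

/-- the quotient of a lattice by an order with the same `H⁺`-part is cyclic -/
lemma cyc [NeZero (2 : K)] [IsDedekindDomain R] [IsFractionRing R K] {J B : Submodule R H} (hJ : J.FG) (hB : B.FG)
    (hBs : Submodule.span K (B : Set H) = ⊤) (hBJ : B ≤ J) (hJB : ∀ x ∈ J, D.dag x = x → x ∈ B) :
    ∃ g ∈ J, ∀ x ∈ J, ∃ r : R, ∃ y ∈ B, x = r • g + y := by
  obtain ⟨π, hπ⟩ := D.exists_pi
  obtain ⟨πR, hπR⟩ : ∃ p : H →ₗ[R] K, p = π.restrictScalars R := ⟨_, rfl⟩
  have hπR' : ∀ x, πR x = π x := fun x => by rw [hπR]; rfl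
  have hne : B.map πR ≠ ⊥ := by
    intro h0
    have h1 : ∀ x ∈ B, π x = 0 := fun x hx => by
      have : πR x ∈ B.map πR := Submodule.mem_map_of_mem hx
      rw [h0, Submodule.mem_bot, hπR'] at this
      exact this
    have h2 : Submodule.span K (B : Set H) ≤ LinearMap.ker π := Submodule.span_le.2 fun x hx => h1 x hx
    rw [hBs] at h2
    have h3 : π D.u = 0 := h2 (Submodule.mem_top (x := (D.u : H)))
    have h4 := hπ D.u
    rw [h3, zero_smul] at h4
    have h5 : D.dag D.u = -D.u := by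
      unfold dag
      rw [D.bar_u, mul_neg, neg_mul, mul_assoc, D.uu, mul_one]
    rw [h5, sub_neg_eq_add, ← two_smul K] at h4
    exact (smul_eq_zero.1 h4).elim (NeZero.ne _) D.u_ne
  obtain ⟨g0, hg0, hg⟩ := cyclic (hJ.map πR) (hB.map πR) hne (Submodule.map_mono hBJ)
  obtain ⟨g, hgJ, rfl⟩ := Submodule.mem_map.1 hg0
  refine ⟨g, hgJ, fun x hx => ?_⟩
  obtain ⟨r, y0, hy0, hxy⟩ := hg (πR x) (Submodule.mem_map_of_mem hx)
  obtain ⟨y, hy, rfl⟩ := Submodule.mem_map.1 hy0
  have h1 : x - (r • g + y) ∈ B := by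
    refine hJB _ (sub_mem hx (add_mem (J.smul_mem r hgJ) (hBJ hy))) ?_
    have h2 := hπ (x - (r • g + y))
    have h3 : π (x - (r • g + y)) = 0 := by
      rw [← hπR', map_sub, map_add, map_smul, hxy, sub_self]
    rw [h3, zero_smul, sub_eq_zero] at h2
    exact h2.symm
  exact ⟨r, y + (x - (r • g + y)), add_mem hy h1, by abel⟩

/-- Euclidean functions on the elements of `H` -/
def EucH {W : Type*} [LinearOrder W] (O : Subalgebra R H) (Φ : H → W) : Prop :=
  ∀ a ∈ O, ∀ b ∈ O, b ≠ 0 → D.dag (a * D.dag b) = a * D.dag b → ∃ q ∈ O, D.dag q = q ∧ Φ (a - b * q) < Φ b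

open Classical in
lemma eucH_of {O : Subalgebra R H} (hdag : ∀ z ∈ O, D.dag z ∈ O) (h : D.IsDagEuclidean.{_, _, _, w} O) :
    ∃ (W : Type w) (_ : LinearOrder W) (_ : WellFoundedLT W) (Φ : H → W), D.EucH O Φ := by
  obtain ⟨W, i1, i2, Φ, hΦ⟩ := h
  refine ⟨W, i1, i2, fun x => if hx : x ∈ O then Φ ⟨x, hx⟩ else Φ 0, fun a ha b hb hb0 hab => ?_⟩
  obtain ⟨q, hq, hlt⟩ := hΦ ⟨a, ha⟩ ⟨b, hb⟩ (fun h0 => hb0 (congrArg Subtype.val h0))
    ⟨mul_mem ha (hdag b hb), hab⟩
  refine ⟨q, q.2, hq, ?_⟩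
  beta_reduce
  rw [dif_pos (sub_mem ha (mul_mem hb q.2)), dif_pos hb]
  exact hlt

lemma of_eucH {O : Subalgebra R H} {W : Type w} [i1 : LinearOrder W] [i2 : WellFoundedLT W] {Φ : H → W} (h : D.EucH O Φ) :
    D.IsDagEuclidean.{_, _, _, w} O := by
  refine ⟨W, i1, i2, fun x => Φ x, fun a b hb hab => ?_⟩
  obtain ⟨q, hq, hq1, hlt⟩ := h a a.2 b b.2 (fun h0 => hb (Subtype.ext h0)) hab.2
  exact ⟨⟨q, hq⟩, hq1, hlt⟩

/-- **The main theorem.** If `O` is a `‡`-Euclidean `‡`-order then every `‡`-order `O'` is contained in a `‡`-Euclidean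
`‡`-order which contains a conjugate `b O b⁻¹` of `O`, `b⁻¹ (u b u⁻¹) ∈ O`. -/
theorem main [NeZero (2 : K)] [IsDedekindDomain R] [IsFractionRing R K] {O O' : Subalgebra R H} (hO : D.IsDagOrder O)
    (hE : D.IsDagEuclidean.{_, _, _, w} O) (hO' : D.IsDagOrder O') :
    ∃ (S : Subalgebra R H) (b c e : H), D.IsDagOrder S ∧ D.IsDagEuclidean.{_, _, _, w} S ∧ O' ≤ S ∧ b * c = 1 ∧ c * b = 1 ∧
      (∀ x ∈ O, b * x * c ∈ S) ∧ (e ∈ O ∧ D.bar e ∈ O ∧ e * D.bar e = 1 ∧ D.bar e * e = 1 ∧
        ∀ x, D.dag (b * x * c) = b * (e * D.dag x * D.bar e) * c) := by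
  obtain ⟨W, i1, i2, Φ, hΦ⟩ := D.eucH_of hO.dag hE
  have hbarO : ∀ x ∈ O, D.bar x ∈ O := fun x hx => bar_mem D.toStdInv hO.fg hx
  have hbarO' : ∀ x ∈ O', D.bar x ∈ O' := fun x hx => bar_mem D.toStdInv hO'.fg hx
  -- the bimodule `N = O' O`
  obtain ⟨N, hN⟩ : ∃ N : Submodule R H, N = Subalgebra.toSubmodule O' * Subalgebra.toSubmodule O := ⟨_, rfl⟩
  have hNfg : N.FG := by rw [hN]; exact hO'.fg.mul hO.fg
  have hN1 : (1 : H) ∈ N := by
    rw [hN]
    have := Submodule.mul_mem_mul (M := Subalgebra.toSubmodule O') (N := Subalgebra.toSubmodule O) (one_mem O')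
      (one_mem O)
    rwa [one_mul] at this
  have hNr : ∀ x ∈ N, ∀ y ∈ O, x * y ∈ N := by
    intro x hx y hy
    rw [hN] at hx ⊢
    induction hx using Submodule.mul_induction_on' with
    | mem_mul_mem m hm n hn =>
      rw [mul_assoc]
      exact Submodule.mul_mem_mul hm (mul_mem (S := Subalgebra R H) hn hy)
    | add x _ z _ h1 h2 => rw [add_mul]; exact add_mem h1 h2
  have hNl : ∀ x ∈ N, ∀ y ∈ O', y * x ∈ N := by
    intro x hx y hy
    rw [hN] at hx ⊢
    induction hx using Submodule.mul_induction_on' with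
    | mem_mul_mem m hm n hn =>
      rw [← mul_assoc]
      exact Submodule.mul_mem_mul (mul_mem (S := Subalgebra R H) hy hm) hn
    | add x _ z _ h1 h2 => rw [mul_add]; exact add_mem h1 h2
  have hNt : ∀ x ∈ N, D.tau x ∈ N := by
    intro x hx
    rw [hN] at hx ⊢
    induction hx using Submodule.mul_induction_on' with
    | mem_mul_mem m hm n hn =>
      rw [D.tau_mul]
      refine Submodule.mul_mem_mul ?_ ?_
      · rw [← D.dag_bar]; exact hO'.dag _ (hbarO' m hm)
      · rw [← D.dag_bar]; exact hO.dag _ (hbarO n hn)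
    | add x _ z _ h1 h2 => rw [D.tau_add]; exact add_mem h1 h2
  obtain ⟨m, hm, hmN⟩ := exists_smul_le hO.span hNfg
  obtain ⟨Ψ, hΨ⟩ := D.exists_eucN hbarO hO.dag hΦ hNr hNt hm hmN
  obtain ⟨b, hb, hnb, ⟨e, he, he1, hne, heq, hed⟩, hdvd⟩ := hΨ.exists_min D hN1
  obtain ⟨c, hc⟩ : ∃ c : H, c = (D.nrd b)⁻¹ • D.bar b := ⟨_, rfl⟩
  have hbc : b * c = 1 := by
    rw [hc, mul_smul_comm, D.mul_bar, Algebra.smul_def, ← map_mul, inv_mul_cancel₀ hnb, map_one]
  have hcb : c * b = 1 := by
    rw [hc, smul_mul_assoc, D.bar_mul_self, Algebra.smul_def, ← map_mul, inv_mul_cancel₀ hnb, map_one]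
  have hee : e * D.bar e = 1 := D.mul_bar_one hne
  have hee' : D.bar e * e = 1 := D.bar_mul_one hne
  have hdb : D.dag b = D.bar e * D.bar b := by
    rw [← hed, ← mul_assoc, hee', one_mul]
  have hdc : D.dag c = (D.nrd b)⁻¹ • (b * e) := by
    rw [hc, D.dag_smul, D.dag_bar, heq]
  have hconj : ∀ x, D.dag (b * x * c) = b * (e * D.dag x * D.bar e) * c := by
    intro x
    rw [D.dag_mul, D.dag_mul, hdb, hdc, hc, mul_smul_comm, smul_mul_assoc]
    congr 1
    noncomm_ring
  -- the order `b O b⁻¹`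
  let cj : H →ₐ[R] H :=
    { toFun := fun x => b * x * c
      map_one' := by rw [mul_one, hbc]
      map_mul' := fun x y => by
        calc b * (x * y) * c = b * x * 1 * y * c := by noncomm_ring
          _ = b * x * (c * b) * y * c := by rw [hcb]
          _ = b * x * c * (b * y * c) := by noncomm_ring
      map_zero' := by rw [mul_zero, zero_mul]
      map_add' := fun x y => by noncomm_ring
      commutes' := fun r => by
        show b * algebraMap R H r * c = algebraMap R H r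
        rw [← Algebra.commutes, mul_assoc, hbc, mul_one] }
  have hcj : ∀ x, cj x = b * x * c := fun x => rfl
  obtain ⟨O1, hO1⟩ : ∃ O1 : Subalgebra R H, O1 = O.map cj := ⟨_, rfl⟩
  have hmem : ∀ x, x ∈ O1 ↔ ∃ y ∈ O, b * y * c = x := fun x => by
    rw [hO1, Subalgebra.mem_map]; rfl
  have hO1fg : (Subalgebra.toSubmodule O1).FG := by
    rw [hO1, Subalgebra.map_toSubmodule]
    exact hO.fg.map _
  have hO1dag : ∀ x ∈ O1, D.dag x ∈ O1 := by
    intro x hx
    obtain ⟨y, hy, rfl⟩ := (hmem x).1 hx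
    rw [hconj]
    exact (hmem _).2 ⟨_, mul_mem (mul_mem he (hO.dag y hy)) (hbarO e he), rfl⟩
  have hO1span : Submodule.span K (O1 : Set H) = ⊤ := by
    rw [eq_top_iff]
    intro x _
    have hx : c * x * b ∈ Submodule.span K (O : Set H) := by rw [hO.span]; trivial
    have hxx : x = b * (c * x * b) * c := by
      calc x = (b * c) * x * (b * c) := by rw [hbc, one_mul, mul_one]
        _ = _ := by noncomm_ring
    rw [hxx]
    generalize c * x * b = z at hx
    induction hx using Submodule.span_induction with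
    | mem z hz => exact Submodule.subset_span ((hmem _).2 ⟨z, hz, rfl⟩)
    | zero => rw [mul_zero, zero_mul]; exact zero_mem _
    | add z z' _ _ h1 h2 => rw [mul_add, add_mul]; exact add_mem h1 h2
    | smul k z _ h1 => rw [mul_smul_comm, smul_mul_assoc]; exact Submodule.smul_mem _ k h1
  -- the lattice `J = N b⁻¹`
  obtain ⟨J, hJ⟩ : ∃ J : Submodule R H, J = N.map (LinearMap.mulRight R c) := ⟨_, rfl⟩
  have hJmem : ∀ x, x ∈ J ↔ x * b ∈ N := by
    intro x
    rw [hJ, Submodule.mem_map]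
    constructor
    · rintro ⟨y, hy, rfl⟩
      rw [LinearMap.mulRight_apply, mul_assoc, hcb, mul_one]; exact hy
    · intro h
      refine ⟨x * b, h, ?_⟩
      rw [LinearMap.mulRight_apply, mul_assoc, hbc, mul_one]
  have hJfg : J.FG := by rw [hJ]; exact hNfg.map _
  have hO1J : Subalgebra.toSubmodule O1 ≤ J := by
    intro x hx
    obtain ⟨y, hy, rfl⟩ := (hmem x).1 hx
    rw [hJmem, mul_assoc, hcb, mul_one]
    exact hNr b hb y hy
  have hO'J : Subalgebra.toSubmodule O' ≤ J := by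
    intro x hx
    rw [hJmem]
    exact hNl b hb x hx
  have hJO1 : ∀ x ∈ J, ∀ y ∈ O1, x * y ∈ J := by
    intro x hx y1 hy1
    obtain ⟨y, hy, rfl⟩ := (hmem y1).1 hy1
    rw [hJmem] at hx ⊢
    have : x * (b * y * c) * b = x * b * y := by
      calc x * (b * y * c) * b = x * b * y * (c * b) := by noncomm_ring
        _ = _ := by rw [hcb, mul_one]
    rw [this]
    exact hNr _ hx y hy
  have hJplus : ∀ x ∈ J, D.dag x = x → x ∈ Subalgebra.toSubmodule O1 := by
    intro x hx hxd
    have h1 : x * b * D.bar b = algebraMap K H (D.nrd b) * x := by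
      rw [mul_assoc, D.mul_bar, Algebra.commutes]
    obtain ⟨y, hy, hxy⟩ := hdvd (x * b) ((hJmem x).1 hx) (by
      rw [h1, ← Algebra.smul_def, D.dag_smul, hxd])
    refine (hmem x).2 ⟨y, hy, ?_⟩
    rw [← hxy, mul_assoc, hbc, mul_one]
  obtain ⟨g, hgJ, hg⟩ := D.cyc hJfg hO1fg hO1span hO1J hJplus
  -- products
  have hprod : ∀ z ∈ O', ∀ y ∈ O1, ∃ z' ∈ O', ∃ y' ∈ O1, z * y = z' + y' := by
    intro z hz y hy
    obtain ⟨r, v, hv, hgy⟩ := hg (g * y) (hJO1 g hgJ y hy)
    obtain ⟨s, v', hv', hz'⟩ := hg z (hO'J hz)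
    refine ⟨r • z, O'.smul_mem hz r, -(r • v') + s • v + v' * y, add_mem (add_mem (neg_mem (O1.smul_mem hv' r))
      (O1.smul_mem hv s)) (mul_mem (S := Subalgebra R H) hv' hy), ?_⟩
    have h1 : z * y = s • (g * y) + v' * y := by
      rw [hz', add_mul, smul_mul_assoc]
    rw [h1, hgy, smul_add, hz', smul_add, smul_comm s r g]
    abel
  have hprod' : ∀ z ∈ O', ∀ y ∈ O1, ∃ z' ∈ O', ∃ y' ∈ O1, y * z = z' + y' := by
    intro z hz y hy
    obtain ⟨z', hz', y', hy', h⟩ := hprod (D.dag z) (hO'.dag z hz) (D.dag y) (hO1dag y hy)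
    refine ⟨D.dag z', hO'.dag z' hz', D.dag y', hO1dag y' hy', ?_⟩
    rw [← D.dag_add, ← h, D.dag_mul, D.dag_dag, D.dag_dag]
  -- the order `O' + O1`
  let S : Subalgebra R H :=
    { carrier := {x | ∃ z ∈ O', ∃ y ∈ O1, x = z + y}
      mul_mem' := by
        rintro _ _ ⟨z, hz, y, hy, rfl⟩ ⟨z', hz', y', hy', rfl⟩
        obtain ⟨p, hp, q, hq, h1⟩ := hprod z hz y' hy'
        obtain ⟨p', hp', q', hq', h2⟩ := hprod' z' hz' y hy
        refine ⟨z * z' + p + p', add_mem (add_mem (mul_mem hz hz') hp) hp', q + q' + y * y',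
          add_mem (add_mem hq hq') (mul_mem hy hy'), ?_⟩
        rw [add_mul, mul_add, mul_add, h1, h2]
        abel
      add_mem' := by
        rintro _ _ ⟨z, hz, y, hy, rfl⟩ ⟨z', hz', y', hy', rfl⟩
        exact ⟨z + z', add_mem hz hz', y + y', add_mem hy hy', by abel⟩
      algebraMap_mem' := fun r => ⟨algebraMap R H r, O'.algebraMap_mem r, 0, zero_mem O1, by rw [add_zero]⟩ }
  have hSmem : ∀ x, x ∈ S ↔ ∃ z ∈ O', ∃ y ∈ O1, x = z + y := fun x => Iff.rfl
  have hO'S : O' ≤ S := fun x hx => ⟨x, hx, 0, zero_mem O1, by rw [add_zero]⟩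
  have hO1S : O1 ≤ S := fun x hx => ⟨0, zero_mem O', x, hx, by rw [zero_add]⟩
  have hS : D.IsDagOrder S := by
    refine ⟨?_, ?_, ?_⟩
    · have : Subalgebra.toSubmodule S = Subalgebra.toSubmodule O' ⊔ Subalgebra.toSubmodule O1 := by
        ext x
        rw [Submodule.mem_sup]
        constructor
        · rintro ⟨z, hz, y, hy, rfl⟩
          exact ⟨z, hz, y, hy, rfl⟩
        · rintro ⟨z, hz, y, hy, rfl⟩
          exact ⟨z, hz, y, hy, rfl⟩
      rw [this]
      exact hO'.fg.sup hO1fg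
    · rw [eq_top_iff, ← hO'.span]
      exact Submodule.span_mono hO'S
    · rintro _ ⟨z, hz, y, hy, rfl⟩
      exact ⟨D.dag z, hO'.dag z hz, D.dag y, hO1dag y hy, D.dag_add z y⟩
  have hSb : ∀ x ∈ S, x * b ∈ N := by
    rintro _ ⟨z, hz, y, hy, rfl⟩
    rw [add_mul]
    exact add_mem ((hJmem z).1 (hO'J hz)) ((hJmem y).1 (hO1J hy))
  refine ⟨S, b, c, e, hS, ?_, hO'S, hbc, hcb, fun x hx => hO1S ((hmem _).2 ⟨x, hx, rfl⟩), he, hbarO e he, hee, hee',
    hconj⟩
  refine D.of_eucH (Φ := fun x => Ψ (x * b)) fun a ha a2 ha2 h0 hsym => ?_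
  have hbe0 : a2 * b * e ≠ 0 := by
    intro h
    apply h0
    calc a2 = a2 * (b * ((e * D.bar e) * c)) := by rw [hee, one_mul, hbc, mul_one]
      _ = a2 * b * e * (D.bar e * c) := by noncomm_ring
      _ = 0 := by rw [h, zero_mul]
  have hdd : a * b * D.dag (a2 * b * e) = D.nrd b • (a * D.dag a2) := by
    rw [D.dag_mul, D.dag_mul, he1]
    calc a * b * (e * (D.dag b * D.dag a2)) = a * b * (e * D.dag b) * D.dag a2 := by noncomm_ring
      _ = a * (b * D.bar b) * D.dag a2 := by rw [hed]; noncomm_ring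
      _ = _ := by rw [D.mul_bar, ← Algebra.commutes, Algebra.smul_def, mul_assoc]
  obtain ⟨q, hq, hq1, hlt⟩ := hΨ.euc (a * b) (hSb a ha) (a2 * b * e) (hNr _ (hSb a2 ha2) e he) hbe0
    (by rw [hdd, D.dag_smul, hsym])
  refine ⟨b * (e * q) * c, hO1S ((hmem _).2 ⟨e * q, mul_mem he hq, rfl⟩), ?_, ?_⟩
  · rw [hconj, D.dag_mul, he1, hq1]
    congr 2
    calc e * (q * e) * D.bar e = e * q * (e * D.bar e) := by noncomm_ring
      _ = e * q := by rw [hee, mul_one]
  · have h1 : (a - a2 * (b * (e * q) * c)) * b = a * b - a2 * b * e * q := by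
      calc (a - a2 * (b * (e * q) * c)) * b = a * b - a2 * b * e * q * (c * b) := by noncomm_ring
        _ = _ := by rw [hcb, mul_one]
    show Ψ ((a - a2 * (b * (e * q) * c)) * b) < Ψ (a2 * b)
    rw [h1]
    rwa [hΨ.inv (a2 * b) (hSb a2 ha2) e he hne] at hlt

end OrthInv

/-- the inverse conjugate of a `‡`-order -/
theorem exists_conj (D : OrthInv K H) {O O' : Subalgebra R H} (hO' : D.IsDagOrder O') {b c e : H} (hbc : b * c = 1)
    (hcb : c * b = 1) (he : e ∈ O) (hbe : D.bar e ∈ O) (hee' : D.bar e * e = 1)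
    (hconj : ∀ x, D.dag (b * x * c) = b * (e * D.dag x * D.bar e) * c) (hbS : ∀ x ∈ O, b * x * c ∈ O') :
    ∃ T : Subalgebra R H, D.IsDagOrder T ∧ ∀ x, x ∈ T ↔ b * x * c ∈ O' := by
  let cj : H →ₐ[R] H :=
    { toFun := fun x => c * x * b
      map_one' := by rw [mul_one, hcb]
      map_mul' := fun x y => by
        calc c * (x * y) * b = c * x * 1 * y * b := by noncomm_ring
          _ = c * x * (b * c) * y * b := by rw [hbc]
          _ = c * x * b * (c * y * b) := by noncomm_ring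
      map_zero' := by rw [mul_zero, zero_mul]
      map_add' := fun x y => by noncomm_ring
      commutes' := fun r => by
        show c * algebraMap R H r * b = algebraMap R H r
        rw [← Algebra.commutes, mul_assoc, hcb, mul_one] }
  have hmem : ∀ x, x ∈ O'.map cj ↔ b * x * c ∈ O' := by
    intro x
    rw [Subalgebra.mem_map]
    constructor
    · rintro ⟨y, hy, rfl⟩
      show b * (c * y * b) * c ∈ O'
      have : b * (c * y * b) * c = y := by
        calc b * (c * y * b) * c = (b * c) * y * (b * c) := by noncomm_ring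
          _ = y := by rw [hbc, one_mul, mul_one]
      rw [this]; exact hy
    · intro h
      refine ⟨b * x * c, h, ?_⟩
      show c * (b * x * c) * b = x
      calc c * (b * x * c) * b = (c * b) * x * (c * b) := by noncomm_ring
        _ = x := by rw [hcb, one_mul, mul_one]
  refine ⟨O'.map cj, ⟨?_, ?_, ?_⟩, hmem⟩
  · rw [Subalgebra.map_toSubmodule]
    exact hO'.fg.map _
  · rw [eq_top_iff]
    intro x _
    have hx : b * x * c ∈ Submodule.span K (O' : Set H) := by rw [hO'.span]; trivial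
    have hxx : x = c * (b * x * c) * b := by
      calc x = (c * b) * x * (c * b) := by rw [hcb, one_mul, mul_one]
        _ = _ := by noncomm_ring
    rw [hxx]
    generalize b * x * c = z at hx
    induction hx using Submodule.span_induction with
    | mem z hz =>
      refine Submodule.subset_span ((hmem _).2 ?_)
      have : b * (c * z * b) * c = z := by
        calc b * (c * z * b) * c = (b * c) * z * (b * c) := by noncomm_ring
          _ = z := by rw [hbc, one_mul, mul_one]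
      rw [this]; exact hz
    | zero => rw [mul_zero, zero_mul]; exact zero_mem _
    | add z z' _ _ h1 h2 => rw [mul_add, add_mul]; exact add_mem h1 h2
    | smul k z _ h1 => rw [mul_smul_comm, smul_mul_assoc]; exact Submodule.smul_mem _ k h1
  · intro x hx
    have h1 : e * D.dag x * D.bar e ∈ O'.map cj := by
      rw [hmem, ← hconj]
      exact hO'.dag _ ((hmem x).1 hx)
    have h2 : D.bar e * (e * D.dag x * D.bar e) * e ∈ O'.map cj :=
      mul_mem (mul_mem ((hmem _).2 (hbS _ hbe)) h1) ((hmem _).2 (hbS _ he))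
    have h3 : D.bar e * (e * D.dag x * D.bar e) * e = D.dag x := by
      calc D.bar e * (e * D.dag x * D.bar e) * e = (D.bar e * e) * D.dag x * (D.bar e * e) := by noncomm_ring
        _ = D.dag x := by rw [hee', one_mul, mul_one]
    rwa [h3] at h2

end Pool.Agent.Q275.DE
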