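import Pool.Agent.Q275.DE.Defs

set_option autoImplicit false
set_option linter.unusedSectionVars false

/-! # Orders are stable under the standard involution; quotients of lattices -/

namespace Pool.Agent.Q275.DE

open Polynomial
open scoped nonZeroDivisors

variable {R K H : Type*} [CommRing R] [Field K] [Ring H] [Algebra R K] [Algebra K H] [Algebra R H] [IsScalarTower R K H]

/-- an integral element has an integral reduced trace -/
lemma tr_int [IsDomain R] [IsIntegrallyClosed R] [IsFractionRing R K] [Nontrivial H] (S : StdInv K H) {x : H}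
    (hx : IsIntegral R x) (hxK : x ∉ Set.range (algebraMap K H)) : ∃ r : R, algebraMap R K r = S.tr x := by
  obtain ⟨p, hp, hpx⟩ := hx
  have hpx' : aeval x (p.map (algebraMap R K)) = 0 := by
    rw [aeval_map_algebraMap]; exact hpx
  obtain ⟨m, hm⟩ : ∃ m : K[X], m = X ^ 2 - C (S.tr x) * X + C (S.nrd x) := ⟨_, rfl⟩
  have hm1 : m.Monic := by
    rw [hm]; monicity!
  have hmd : m.natDegree = 2 := by
    rw [hm]; compute_degree!
  have hmx : aeval x m = 0 := by
    rw [hm, map_add, map_sub, map_mul, map_pow, aeval_X, aeval_C, aeval_C, ← S.add_bar, ← S.bar_mul_self]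
    noncomm_ring
  have hr : aeval x (p.map (algebraMap R K) %ₘ m) = 0 := by
    have h1 := modByMonic_add_div (p.map (algebraMap R K)) m
    have h2 := congrArg (aeval x) h1
    rw [map_add, map_mul, hmx, zero_mul, add_zero, hpx'] at h2
    exact h2
  have hr0 : p.map (algebraMap R K) %ₘ m = 0 := by
    have h1 : (p.map (algebraMap R K) %ₘ m).natDegree ≤ 1 := by
      have := natDegree_modByMonic_lt (p.map (algebraMap R K)) hm1 (by
        intro h; rw [h] at hmd; simp at hmd)
      omega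
    obtain ⟨a, b, hab⟩ := exists_eq_X_add_C_of_natDegree_le_one h1
    rw [hab, map_add, map_mul, aeval_C, aeval_C, aeval_X] at hr
    by_cases ha : a = 0
    · rw [ha, map_zero, zero_mul, zero_add] at hr
      have hb : b = 0 := (algebraMap K H).injective (by rw [hr, map_zero])
      rw [hab, ha, hb]; simp
    · exfalso
      apply hxK
      refine ⟨-(a⁻¹ * b), ?_⟩
      have h2 : algebraMap K H a⁻¹ * (algebraMap K H a * x + algebraMap K H b) = 0 := by rw [hr, mul_zero]
      rw [mul_add, ← mul_assoc, ← map_mul, inv_mul_cancel₀ ha, map_one, one_mul, ← map_mul] at h2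
      rw [map_neg, eq_comm, ← add_eq_zero_iff_eq_neg, h2]
  have hdvd : m ∣ p.map (algebraMap R K) := (modByMonic_eq_zero_iff_dvd hm1).1 hr0
  obtain ⟨g, hg⟩ := IsIntegrallyClosed.eq_map_mul_C_of_dvd K hp hdvd
  rw [hm1.leadingCoeff, C_1, mul_one] at hg
  refine ⟨-g.coeff 1, ?_⟩
  have h3 : (g.map (algebraMap R K)).coeff 1 = -S.tr x := by
    rw [hg, hm]; simp [coeff_C]
  rw [coeff_map] at h3
  rw [map_neg, h3, neg_neg]

/-- orders are stable under the standard involution -/
lemma bar_mem [IsDomain R] [IsIntegrallyClosed R] [IsFractionRing R K] [Nontrivial H] (S : StdInv K H)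
    {O : Subalgebra R H} (hfg : (Subalgebra.toSubmodule O).FG) {x : H} (hx : x ∈ O) : S.bar x ∈ O := by
  by_cases hxK : x ∈ Set.range (algebraMap K H)
  · obtain ⟨k, rfl⟩ := hxK
    rw [S.bar_algebraMap]; exact hx
  · obtain ⟨r, hr⟩ := tr_int S (IsIntegral.of_mem_of_fg O hfg x hx) hxK
    rw [S.bar_eq, ← hr, ← IsScalarTower.algebraMap_apply]
    exact sub_mem (O.algebraMap_mem r) hx

/-- elements of `H` have multiples in an order -/
lemma exists_smul_mem [IsDomain R] [IsFractionRing R K] {O : Subalgebra R H} (hs : Submodule.span K (O : Set H) = ⊤) (x : H) :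
    ∃ m : R, m ≠ 0 ∧ m • x ∈ O := by
  have hx : x ∈ Submodule.span K (O : Set H) := by rw [hs]; trivial
  induction hx using Submodule.span_induction with
  | mem x hx => exact ⟨1, one_ne_zero, by rw [one_smul]; exact hx⟩
  | zero => exact ⟨1, one_ne_zero, by rw [smul_zero]; exact zero_mem O⟩
  | add x y _ _ hx hy =>
    obtain ⟨m, hm, hm'⟩ := hx
    obtain ⟨n, hn, hn'⟩ := hy
    refine ⟨m * n, mul_ne_zero hm hn, ?_⟩
    rw [smul_add]
    refine add_mem ?_ ?_
    · rw [mul_comm, mul_smul]; exact O.smul_mem hm' n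
    · rw [mul_smul]; exact O.smul_mem hn' m
  | smul k x _ hx =>
    obtain ⟨m, hm, hm'⟩ := hx
    obtain ⟨a, b, hb, hab⟩ := IsFractionRing.div_surjective (A := R) k
    have hb0 : b ≠ 0 := nonZeroDivisors.ne_zero hb
    refine ⟨m * b, mul_ne_zero hm hb0, ?_⟩
    have h1 : (m * b) • k • x = a • m • x := by
      have hbK : algebraMap R K b ≠ 0 := by
        rw [Ne, FaithfulSMul.algebraMap_eq_zero_iff]; exact hb0
      rw [← IsScalarTower.algebraMap_smul K (m * b) (k • x), ← IsScalarTower.algebraMap_smul K a (m • x),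
        ← IsScalarTower.algebraMap_smul K m x, smul_smul, smul_smul, ← hab, map_mul]
      congr 1
      field_simp
    rw [h1]
    exact O.smul_mem hm' a

/-- a finitely generated module has a multiple in an order -/
lemma exists_smul_le [IsDomain R] [IsFractionRing R K] {O : Subalgebra R H} (hs : Submodule.span K (O : Set H) = ⊤)
    {N : Submodule R H} (hN : N.FG) : ∃ m : R, m ≠ 0 ∧ ∀ x ∈ N, m • x ∈ O := by
  refine Submodule.fg_induction (motive := fun N _ => ∃ m : R, m ≠ 0 ∧ ∀ x ∈ N, m • x ∈ O) ?_ ?_ N hN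
  · intro x
    obtain ⟨m, hm, hm'⟩ := exists_smul_mem hs x
    refine ⟨m, hm, fun y hy => ?_⟩
    obtain ⟨r, rfl⟩ := Submodule.mem_span_singleton.1 hy
    rw [smul_comm]
    exact O.smul_mem hm' r
  · intro N1 N2 _ _ h1 h2
    obtain ⟨m, hm, hm'⟩ := h1
    obtain ⟨n, hn, hn'⟩ := h2
    refine ⟨m * n, mul_ne_zero hm hn, fun x hx => ?_⟩
    obtain ⟨y, hy, z, hz, rfl⟩ := Submodule.mem_sup.1 hx
    rw [smul_add]
    refine add_mem ?_ ?_
    · rw [mul_comm, mul_smul]; exact O.smul_mem (hm' y hy) n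
    · rw [mul_smul]; exact O.smul_mem (hn' z hz) m

/-- The quotient of two finitely generated nonzero submodules of `K` is cyclic. -/
lemma cyclic [IsDedekindDomain R] [IsFractionRing R K] {A B : Submodule R K} (hA : A.FG) (hB : B.FG) (hB0 : B ≠ ⊥)
    (h : B ≤ A) : ∃ g ∈ A, ∀ x ∈ A, ∃ r : R, ∃ y ∈ B, x = r • g + y := by
  obtain ⟨a, ha⟩ : ∃ a : FractionalIdeal R⁰ K, (a : Submodule R K) = A := ⟨⟨A, FractionalIdeal.isFractional_of_fg hA⟩, rfl⟩
  obtain ⟨b, hb⟩ : ∃ b : FractionalIdeal R⁰ K, (b : Submodule R K) = B := ⟨⟨B, FractionalIdeal.isFractional_of_fg hB⟩, rfl⟩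
  have hb0 : b ≠ 0 := by
    rintro rfl
    apply hB0
    rw [← hb]; simp
  have hba : b ≤ a := by
    rw [← FractionalIdeal.coe_le_coe, ha, hb]; exact h
  obtain ⟨g, hg⟩ := IsDedekindDomain.exists_add_spanSingleton_mul_eq hba hb0 (one_ne_zero)
  rw [mul_one] at hg
  have hg' : B ⊔ Submodule.span R {g} = A := by
    rw [← ha, ← hb, ← hg, FractionalIdeal.coe_add, FractionalIdeal.coe_spanSingleton]
    rfl
  refine ⟨g, ?_, fun x hx => ?_⟩
  · rw [← hg']
    exact Submodule.mem_sup_right (Submodule.mem_span_singleton_self g)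
  · rw [← hg'] at hx
    obtain ⟨y, hy, z, hz, rfl⟩ := Submodule.mem_sup.1 hx
    obtain ⟨r, rfl⟩ := Submodule.mem_span_singleton.1 hz
    exact ⟨r, y, hy, add_comm _ _⟩

end Pool.Agent.Q275.DE
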